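import Pool.Agent.K3h47.HY.Stm

/-! Brick SPJ (for helper47): the small entry is in `J`. -/

set_option autoImplicit false

namespace Pool.Agent.K3h10.HY

open Finset Pool.Agent.K3h47.HY

/-- prescribed coordinates -/
theorem presc {n r M : ℕ} {e : Fin r → ℕ} {Λ : AddSubgroup (∀ i, ZMod (e i))}
    (H : Cmb n r M e Λ) (I : Finset (Fin r)) (hI : I.card ≤ n) (b : ∀ i, ZMod (e i)) :
    ∃ l ∈ Λ, ∀ i ∈ I, l i = b i := by
  classical
  have hne : ∀ i, NeZero (e i) := fun i => ⟨by have := H.two i; omega⟩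
  choose ρ h1 h2 h3 using H.sur I hI
  refine ⟨∑ i ∈ I.attach, (b i.1).val • ρ i.1 i.2, ?_, ?_⟩
  · exact sum_mem fun i _ => Λ.nsmul_mem (h1 i.1 i.2) _
  · intro i hi
    rw [Finset.sum_apply, Finset.sum_eq_single ⟨i, hi⟩]
    · rw [Pi.smul_apply, h2 i hi, nsmul_eq_mul, mul_one, ZMod.natCast_zmod_val]
    · intro j _ hj
      rw [Pi.smul_apply, h3 j.1 j.2 i hi (fun h => hj (Subtype.ext h.symm)), smul_zero]
    · intro h
      exact absurd (mem_attach _ _) h

theorem sum_mod (s a : ℕ) : ∑ c ∈ range s, (a + c) % s = ∑ c ∈ range s, c := by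
  induction a with
  | zero =>
    refine sum_congr rfl fun c hc => ?_
    rw [zero_add, Nat.mod_eq_of_lt (mem_range.1 hc)]
  | succ a ih =>
    rw [← ih]
    have h1 := sum_range_succ (fun c => (a + c) % s) s
    have h2 := sum_range_succ' (fun c => (a + c) % s) s
    have h3 : ∑ c ∈ range s, (a + (c + 1)) % s = ∑ c ∈ range s, (a + 1 + c) % s :=
      sum_congr rfl fun c _ => by rw [show a + (c + 1) = a + 1 + c by ring]
    rw [h3] at h2
    have h4 : (a + s) % s = (a + 0) % s := by simp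
    omega

theorem sum_mod' (s a : ℕ) : 2 * ∑ c ∈ range s, (a + c) % s = s * (s - 1) := by
  rw [sum_mod, mul_comm, Finset.sum_range_id_mul_two]

/-- residues -/
theorem val_mod {N s : ℕ} [NeZero N] (hs : s ∣ N) (a : ZMod N) (c : ℕ) :
    (a + (c : ZMod N)).val % s = (a.val + c) % s := by
  rw [ZMod.val_add, Nat.mod_mod_of_dvd _ hs, ZMod.val_natCast, Nat.add_mod,
    Nat.mod_mod_of_dvd _ hs, ← Nat.add_mod]

theorem val_smul {N s : ℕ} [NeZero N] (hs : s ∣ N) (a b : ZMod N) :
    (a + s • b).val % s = a.val % s := by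
  have h : s • b = ((s * b.val : ℕ) : ZMod N) := by
    rw [Nat.cast_mul, ZMod.natCast_zmod_val, nsmul_eq_mul]
  rw [h, val_mod hs, Nat.add_mul_mod_self_left]

theorem val_add_cast {N : ℕ} [NeZero N] (a : ZMod N) (c : ℕ) :
    (a + (c : ZMod N)).val = (a.val + c) % N := by
  rw [ZMod.val_add, ZMod.val_natCast, Nat.add_mod_mod]

theorem val_add_cast' {N M : ℕ} [NeZero N] (h : N = M) (a : ZMod N) (c : ℕ) :
    (a + (c : ZMod N)).val = (a.val + c) % M := by
  subst h
  exact val_add_cast a c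

theorem high {s ν w : ℕ} : w % (s * ν) - w % (s * ν) % s = s * (w / s % ν) := by
  have h1 := Nat.div_add_mod (w % (s * ν)) s
  rw [Nat.mod_mul_right_div_self] at h1
  omega

theorem top_val {N : ℕ} [NeZero N] : (-1 : ZMod N).val = N - 1 := by
  obtain ⟨k, hk⟩ : ∃ k, N = k + 1 := ⟨N - 1, by have := NeZero.ne N; omega⟩
  subst hk
  exact ZMod.val_neg_one k

theorem t_SPJ : S_SPJ := by
  classical
  intro n r M e Λ H hr i₀ ν hM hν he J x hJ hi₀
  have hne : ∀ i, NeZero (e i) := fun i => ⟨by have := H.two i; omega⟩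
  have hs2 : 2 ≤ e i₀ := H.two i₀
  obtain ⟨s, hs⟩ : ∃ s, s = e i₀ := ⟨_, rfl⟩
  rw [← hs] at hM hs2
  have hn2 : 2 ≤ n := by
    have : 0 < J.card := card_pos.2 ⟨i₀, hi₀⟩
    omega
  have hM0 : 0 < M := Nat.pos_of_ne_zero H.M0
  set K : Finset (Fin r) := univ \ J with hK
  have hKc : K.card = 4 := by
    rw [hK, card_sdiff_of_subset (subset_univ _), card_univ, Fintype.card_fin]
    omega
  have hKne : ∀ t ∈ K, t ≠ i₀ := by
    intro t ht h
    rw [hK, mem_sdiff] at ht
    exact ht.2 (h ▸ hi₀)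
  have hKJ : ∀ t ∈ K, t ∉ J := fun t ht => (mem_sdiff.1 ht).2
  have hKe : ∀ t ∈ K, e t = M := fun t ht => he t (hKne t ht)
  have hsM : s ∣ M := ⟨ν, hM⟩
  have hsK : ∀ t ∈ K, s ∣ e t := fun t ht => by rw [hKe t ht]; exact hsM
  -- step 0
  obtain ⟨l0, hl0, hl0'⟩ := presc H J (by omega) (fun i => -1 - x i)
  set z0 := x + l0 with hz0
  have hz0J : ∀ i ∈ J, z0 i = -1 := fun i hi => by
    rw [hz0, Pi.add_apply, hl0' i hi]
    ring
  -- step 1
  let G1 : AddSubgroup (∀ i, ZMod (e i)) :=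
    { carrier := {l | l ∈ Λ ∧ ∀ i ∈ J, l i = 0}
      add_mem' := fun {a b} ha hb => ⟨Λ.add_mem ha.1 hb.1, fun i hi => by
        rw [Pi.add_apply, ha.2 i hi, hb.2 i hi, add_zero]⟩
      zero_mem' := ⟨Λ.zero_mem, fun i _ => rfl⟩
      neg_mem' := fun {a} ha => ⟨Λ.neg_mem ha.1, fun i hi => by
        rw [Pi.neg_apply, ha.2 i hi, neg_zero]⟩ }
  have hfin : Finite (∀ i, ZMod (e i)) := inferInstance
  obtain ⟨g1, hg1, hav1⟩ := exists_ge_avg G1 K (fun t y => (((y t).val % s : ℕ) : ℚ))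
    (fun _ => ((s : ℚ) - 1) / 2) (by
      intro t ht
      obtain ⟨g, hg, hg'⟩ := presc H (insert t J) (by
        rw [card_insert_of_notMem (hKJ t ht)]
        omega) (fun i => if i = t then 1 else 0)
      refine ⟨g, ⟨hg, fun i hi => ?_⟩, s, by omega, fun y => ?_⟩
      · rw [hg' i (mem_insert_of_mem hi), if_neg]
        rintro rfl
        exact hKJ i ht hi
      · have h1 : g t = 1 := by rw [hg' t (mem_insert_self _ _), if_pos rfl]
        have h2 : ∀ c : ℕ, ((y + c • g) t).val % s = ((y t).val + c) % s := by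
          intro c
          rw [Pi.add_apply, Pi.smul_apply, h1, nsmul_eq_mul, mul_one]
          exact val_mod (hsK t ht) _ _
        have h3 := sum_mod' s (y t).val
        have h4 : (2 : ℚ) * ∑ c ∈ range s, ((((y t).val + c) % s : ℕ) : ℚ) = s * (s - 1) := by
          have := congrArg (Nat.cast : ℕ → ℚ) h3
          push_cast [Nat.cast_sub (show 1 ≤ s by omega)] at this
          exact_mod_cast this
        rw [sum_congr rfl fun c _ => by rw [h2 c]]
        linarith) z0
  set z1 := z0 + g1 with hz1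
  have hz1J : ∀ i ∈ J, z1 i = -1 := fun i hi => by
    rw [hz1, Pi.add_apply, hz0J i hi, hg1.2 i hi, add_zero]
  rw [sum_const, hKc] at hav1
  -- step 2
  obtain ⟨t0, ht0⟩ : K.Nonempty := card_pos.1 (by omega)
  have ht0J : t0 ∉ J := hKJ t0 ht0
  set I : Finset (Fin r) := insert t0 (J.erase i₀) with hI
  have hIc : I.card + 1 = n := by
    rw [hI, card_insert_of_notMem (fun h => ht0J (mem_of_mem_erase h)), card_erase_of_mem hi₀]
    omega
  obtain ⟨l2, hl2, hl2'⟩ := presc H I (by omega) (fun i => if i = t0 then 1 else 0)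
  have hsv : ∀ l : (∀ i, ZMod (e i)), (∀ i ∈ J.erase i₀, l i = 0) → ∀ i ∈ J, (s • l) i = 0 := by
    intro l hl i hi
    rw [Pi.smul_apply]
    by_cases h : i = i₀
    · subst h
      rw [hs, nsmul_eq_mul, ZMod.natCast_self, zero_mul]
    · rw [hl i (mem_erase.2 ⟨h, hi⟩), smul_zero]
  have hl2J : ∀ i ∈ J, (s • l2) i = 0 := hsv l2 fun i hi => by
    rw [hl2' i (mem_insert_of_mem hi), if_neg]
    rintro rfl
    exact ht0J (mem_of_mem_erase hi)
  have hl2t : l2 t0 = 1 := by rw [hl2' t0 (mem_insert_self _ _), if_pos rfl]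
  set v := (z1 t0).val with hv
  have hvM : v < M := lt_of_lt_of_eq (ZMod.val_lt (z1 t0)) (hKe t0 ht0)
  have hq : v / s < ν := by
    rw [Nat.div_lt_iff_lt_mul (by omega), mul_comm, ← hM]
    exact hvM
  set c := ν - 1 - v / s with hc
  set z2 := z1 + c • (s • l2) with hz2
  have hz2J : ∀ i ∈ J, z2 i = -1 := fun i hi => by
    rw [hz2, Pi.add_apply, hz1J i hi, Pi.smul_apply, hl2J i hi, smul_zero, add_zero]
  have hz2t : (z2 t0).val = M - s + v % s := by
    have h1 : z2 t0 = z1 t0 + ((c * s : ℕ) : ZMod (e t0)) := by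
      rw [hz2, Pi.add_apply, Pi.smul_apply, Pi.smul_apply, hl2t, nsmul_eq_mul, nsmul_eq_mul,
        mul_one, Nat.cast_mul]
    rw [h1, val_add_cast' (hKe t0 ht0), ← hv]
    have h2 := Nat.div_add_mod v s
    have h3 : v % s < s := Nat.mod_lt _ (by omega)
    have h4 : v + c * s = M - s + v % s := by
      obtain ⟨k, hk⟩ : ∃ k, ν = v / s + k + 1 := ⟨ν - 1 - v / s, by omega⟩
      have hck : c = k := by omega
      rw [hck, hM, hk]
      have h5 : s * (v / s + k + 1) = s * (v / s) + k * s + s := by ring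
      rw [h5]
      omega
    rw [h4, Nat.mod_eq_of_lt]
    have h6 : s ≤ M := Nat.le_of_dvd hM0 hsM
    omega
  have hz2K : ∀ t ∈ K, (z2 t).val % s = (z1 t).val % s := by
    intro t ht
    have h1 : z2 t = z1 t + s • (c • l2 t) := by
      rw [hz2, Pi.add_apply, Pi.smul_apply, Pi.smul_apply, smul_comm]
    rw [h1]
    exact val_smul (hsK t ht) _ _
  -- step 3
  let L3 : AddSubgroup (∀ i, ZMod (e i)) :=
    { carrier := {l | l ∈ Λ ∧ ∀ i ∈ I, l i = 0}
      add_mem' := fun {a b} ha hb => ⟨Λ.add_mem ha.1 hb.1, fun i hi => by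
        rw [Pi.add_apply, ha.2 i hi, hb.2 i hi, add_zero]⟩
      zero_mem' := ⟨Λ.zero_mem, fun i _ => rfl⟩
      neg_mem' := fun {a} ha => ⟨Λ.neg_mem ha.1, fun i hi => by
        rw [Pi.neg_apply, ha.2 i hi, neg_zero]⟩ }
  let G3 : AddSubgroup (∀ i, ZMod (e i)) := L3.map (nsmulAddMonoidHom s)
  obtain ⟨g3, hg3, hav3⟩ := exists_ge_avg G3 (K.erase t0)
    (fun t y => (((y t).val - (y t).val % s : ℕ) : ℚ))
    (fun _ => ((M : ℚ) - s) / 2) (by
      intro t ht
      obtain ⟨htt, htK⟩ := mem_erase.1 ht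
      have htI : t ∉ I := by
        rw [hI, mem_insert, not_or]
        exact ⟨htt, fun h => hKJ t htK (mem_of_mem_erase h)⟩
      obtain ⟨g, hg, hg'⟩ := presc H (insert t I) (by
        rw [card_insert_of_notMem htI]
        omega) (fun i => if i = t then 1 else 0)
      refine ⟨s • g, ⟨g, ⟨hg, fun i hi => ?_⟩, rfl⟩, ν, by omega, fun y => ?_⟩
      · rw [hg' i (mem_insert_of_mem hi), if_neg]
        rintro rfl
        exact htI hi
      · have h1 : g t = 1 := by rw [hg' t (mem_insert_self _ _), if_pos rfl]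
        have h2 : ∀ c : ℕ, ((y + c • (s • g)) t).val - ((y + c • (s • g)) t).val % s =
            s * (((y t).val / s + c) % ν) := by
          intro c
          have h3 : (y + c • (s • g)) t = y t + ((s * c : ℕ) : ZMod (e t)) := by
            rw [Pi.add_apply, Pi.smul_apply, Pi.smul_apply, h1, nsmul_eq_mul, nsmul_eq_mul,
              mul_one, mul_comm s c, Nat.cast_mul]
          rw [h3, val_add_cast' (hKe t htK), hM, high, Nat.add_mul_div_left _ _ (by omega)]
        have h3 := sum_mod' ν ((y t).val / s)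
        have h4 : (2 : ℚ) * ∑ c ∈ range ν, ((((y t).val / s + c) % ν : ℕ) : ℚ) =
            ν * (ν - 1) := by
          have := congrArg (Nat.cast : ℕ → ℚ) h3
          push_cast [Nat.cast_sub (show 1 ≤ ν by omega)] at this
          exact_mod_cast this
        rw [sum_congr rfl fun c _ => by rw [h2 c, Nat.cast_mul], ← mul_sum]
        have h5 : (M : ℚ) = s * ν := by rw [hM]; push_cast; ring
        rw [h5]
        nlinarith [h4]) z2
  obtain ⟨l3, hl3, rfl⟩ := hg3
  have e3 : nsmulAddMonoidHom s l3 = s • l3 := rfl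
  rw [e3] at hav3
  set y := z2 + s • l3 with hy
  have hyJ : ∀ i ∈ J, y i = -1 := fun i hi => by
    rw [hy, Pi.add_apply, hz2J i hi, hsv l3 (fun i hi => hl3.2 i (mem_insert_of_mem hi)) i hi,
      add_zero]
  have hyt : (y t0).val = M - s + v % s := by
    rw [hy, Pi.add_apply, Pi.smul_apply, hl3.2 t0 (mem_insert_self _ _), smul_zero, add_zero, hz2t]
  have hyK : ∀ t ∈ K, (y t).val % s = (z1 t).val % s := by
    intro t ht
    rw [← hz2K t ht, hy, Pi.add_apply, Pi.smul_apply]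
    exact val_smul (hsK t ht) _ _
  refine ⟨y, ?_, fun i hi => by rw [hyJ i hi, top_val], ?_⟩
  · have h1 : y - x = l0 + g1 + c • (s • l2) + s • l3 := by
      rw [hy, hz2, hz1, hz0]
      abel
    rw [h1]
    exact Λ.add_mem (Λ.add_mem (Λ.add_mem hl0 hg1.1) (Λ.nsmul_mem (Λ.nsmul_mem hl2 _) _))
      (Λ.nsmul_mem hl3.1 _)
  · -- the value
    have hval : (Val M e y : ℚ) = ((n : ℚ) - 2) * (M - 1) + (s - 1) * ν +
        ∑ t ∈ K, ((y t).val : ℚ) := by
      unfold Val
      rw [← sum_sdiff (subset_univ J), ← hK, ← add_sum_erase J _ hi₀]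
      have h1 : ∑ i ∈ J.erase i₀, (y i).val * (M / e i) = (n - 2) * (M - 1) := by
        have h2 : ∀ i ∈ J.erase i₀, (y i).val * (M / e i) = M - 1 := by
          intro i hi
          obtain ⟨h3, h4⟩ := mem_erase.1 hi
          rw [hyJ i h4, top_val, he i h3, Nat.div_self hM0, mul_one]
        rw [sum_congr rfl h2, sum_const, card_erase_of_mem hi₀, smul_eq_mul]
        congr 1
        omega
      have h2 : (y i₀).val * (M / e i₀) = (s - 1) * ν := by
        rw [hyJ i₀ hi₀, top_val, ← hs, hM, Nat.mul_div_cancel_left _ (by omega)]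
      have h3 : ∑ t ∈ K, (y t).val * (M / e t) = ∑ t ∈ K, (y t).val :=
        sum_congr rfl fun t ht => by
          have h : M / e t = 1 := by rw [hKe t ht, Nat.div_self hM0]
          rw [h, mul_one]
      rw [h1, h2, h3]
      push_cast [Nat.cast_sub hn2, Nat.cast_sub (show 1 ≤ M by omega),
        Nat.cast_sub (show 1 ≤ s by omega)]
      ring
    have hsplit : ∑ t ∈ K, ((y t).val : ℚ) = ∑ t ∈ K, (((y t).val % s : ℕ) : ℚ) +
        ((((y t0).val - (y t0).val % s : ℕ) : ℚ) +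
        ∑ t ∈ K.erase t0, (((y t).val - (y t).val % s : ℕ) : ℚ)) := by
      rw [add_sum_erase K (fun t => (((y t).val - (y t).val % s : ℕ) : ℚ)) ht0,
        ← sum_add_distrib]
      refine sum_congr rfl fun t _ => ?_
      rw [Nat.cast_sub (Nat.mod_le _ _)]
      ring
    have hres : ∑ t ∈ K, (((y t).val % s : ℕ) : ℚ) = ∑ t ∈ K, (((z1 t).val % s : ℕ) : ℚ) :=
      sum_congr rfl fun t ht => by rw [hyK t ht]
    have ht0v : (((y t0).val - (y t0).val % s : ℕ) : ℚ) = M - s := by
      have h1 : (y t0).val - (y t0).val % s = M - s := by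
        rw [hyt]
        have h2 : s ∣ M - s := Nat.dvd_sub hsM dvd_rfl
        obtain ⟨d, hd⟩ := h2
        rw [hd, Nat.mul_add_mod, Nat.mod_mod]
        omega
      rw [h1, Nat.cast_sub (Nat.le_of_dvd hM0 hsM)]
    rw [sum_const, card_erase_of_mem ht0, hKc] at hav3
    have hMq : (M : ℚ) = s * ν := by rw [hM]; push_cast; ring
    have hs2' : (2 : ℚ) ≤ s := by exact_mod_cast hs2
    have hν' : (2 : ℚ) ≤ ν := by exact_mod_cast hν
    have hfinal : ((n : ℚ) + 1) * M < Val M e y + (n + 2) := by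
      rw [hval, hsplit, hres, ht0v]
      have h5 : ∑ t ∈ K, (((z1 t).val % s : ℕ) : ℚ) ≥ 4 * ((s - 1) / 2) := by
        simpa using hav1
      have h6 : ∑ t ∈ K.erase t0, (((y t).val - (y t).val % s : ℕ) : ℚ) ≥
          3 * ((M - s) / 2) := by
        simpa using hav3
      have h7 : 0 ≤ ((s : ℚ) - 2) * (ν - 1) := mul_nonneg (by linarith) (by linarith)
      nlinarith [h5, h6, h7, hMq]
    exact_mod_cast hfinal

end Pool.Agent.K3h10.HY
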